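import Mathlib

set_option autoImplicit false
set_option linter.unusedSectionVars false

/-!
Counting cycles through enumerations.
-/

namespace Run7.h765

open Finset

/-- The set of `n`-cycles. -/
def cyc (n : ℕ) : Finset (Equiv.Perm (Fin n)) :=
  Finset.univ.filter (fun τ => τ.cycleType = {n})

lemma mem_cyc {n : ℕ} (τ : Equiv.Perm (Fin n)) : τ ∈ cyc n ↔ τ.cycleType = {n} := by
  simp [cyc]

/-- The number of enumerations of a given cycle. -/
def fib (n : ℕ) (τ : Equiv.Perm (Fin n)) : Finset (Equiv.Perm (Fin n)) :=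
  Finset.univ.filter (fun π => π * finRotate n * π⁻¹ = τ)

lemma rot_mem {n : ℕ} (hn : 2 ≤ n) : finRotate n ∈ cyc n := by
  obtain ⟨k, rfl⟩ : ∃ k, n = k + 2 := ⟨n - 2, by omega⟩
  rw [mem_cyc, cycleType_finRotate]

lemma conj_mem {n : ℕ} (hn : 2 ≤ n) (π : Equiv.Perm (Fin n)) : π * finRotate n * π⁻¹ ∈ cyc n := by
  rw [mem_cyc, Equiv.Perm.cycleType_conj]
  exact (mem_cyc _).mp (rot_mem hn)

lemma card_fib {n : ℕ} (hn : 2 ≤ n) (τ : Equiv.Perm (Fin n)) (hτ : τ ∈ cyc n) :
    (fib n τ).card = (fib n (finRotate n)).card := by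
  have h1 : IsConj (finRotate n) τ := by
    rw [Equiv.Perm.isConj_iff_cycleType_eq, (mem_cyc _).mp hτ, (mem_cyc _).mp (rot_mem hn)]
  obtain ⟨g, hg⟩ := isConj_iff.mp h1
  symm
  refine Finset.card_bij (fun π _ => g * π) ?_ ?_ ?_
  · intro π hπ
    simp only [fib, Finset.mem_filter, Finset.mem_univ, true_and] at hπ ⊢
    rw [← hg]
    nth_rw 2 [← hπ]
    group
  · intro a _ b _ hab
    exact mul_left_cancel hab
  · intro π hπ
    refine ⟨g⁻¹ * π, ?_, by group⟩
    simp only [fib, Finset.mem_filter, Finset.mem_univ, true_and] at hπ ⊢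
    have : g⁻¹ * π * finRotate n * (g⁻¹ * π)⁻¹ = g⁻¹ * (π * finRotate n * π⁻¹) * g := by group
    rw [this, hπ, ← hg]
    group

lemma count_enum {n : ℕ} (hn : 2 ≤ n) (P : Equiv.Perm (Fin n) → Prop) [DecidablePred P] :
    (Finset.univ.filter (fun π : Equiv.Perm (Fin n) => P (π * finRotate n * π⁻¹))).card =
      ((cyc n).filter P).card * (fib n (finRotate n)).card := by
  have h1 : ∀ π ∈ (Finset.univ.filter (fun π : Equiv.Perm (Fin n) => P (π * finRotate n * π⁻¹))),
      π * finRotate n * π⁻¹ ∈ (cyc n).filter P := by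
    intro π hπ
    rw [Finset.mem_filter] at hπ ⊢
    exact ⟨conj_mem hn π, hπ.2⟩
  rw [Finset.card_eq_sum_card_fiberwise h1, Finset.sum_const_nat]
  intro τ hτ
  rw [Finset.mem_filter] at hτ
  rw [← card_fib hn τ hτ.1]
  congr 1
  ext π
  simp only [fib, Finset.mem_filter, Finset.mem_univ, true_and]
  constructor
  · rintro ⟨_, h⟩; exact h
  · intro h
    exact ⟨by rw [h]; exact hτ.2, h⟩

lemma fib_pos {n : ℕ} : 0 < (fib n (finRotate n)).card := by
  rw [Finset.card_pos]
  refine ⟨1, ?_⟩
  simp [fib]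

/-- If every enumeration can be made good by a modification of positions taken from a set `K`,
then at least a proportion `1 / |K|` of the cycles is good. -/
theorem count_main {n : ℕ} (hn : 2 ≤ n) (P : Equiv.Perm (Fin n) → Prop) [DecidablePred P]
    (K : Finset (Equiv.Perm (Fin n)))
    (h : ∀ π : Equiv.Perm (Fin n), ∃ κ ∈ K, P ((π * κ) * finRotate n * (π * κ)⁻¹)) :
    (cyc n).card ≤ K.card * ((cyc n).filter P).card := by
  have h1 : (Finset.univ : Finset (Equiv.Perm (Fin n))).card ≤
      ∑ κ ∈ K, (Finset.univ.filter (fun π : Equiv.Perm (Fin n) =>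
        P ((π * κ) * finRotate n * (π * κ)⁻¹))).card := by
    have : (Finset.univ : Finset (Equiv.Perm (Fin n))) ⊆
        K.biUnion (fun κ => Finset.univ.filter (fun π : Equiv.Perm (Fin n) =>
        P ((π * κ) * finRotate n * (π * κ)⁻¹))) := by
      intro π _
      rw [Finset.mem_biUnion]
      obtain ⟨κ, hκ, hP⟩ := h π
      exact ⟨κ, hκ, by simpa using hP⟩
    exact (Finset.card_le_card this).trans Finset.card_biUnion_le
  have h2 : ∀ κ ∈ K, (Finset.univ.filter (fun π : Equiv.Perm (Fin n) =>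
        P ((π * κ) * finRotate n * (π * κ)⁻¹))).card =
      ((cyc n).filter P).card * (fib n (finRotate n)).card := by
    intro κ _
    rw [← count_enum hn P]
    refine Finset.card_bij (fun π _ => π * κ) ?_ ?_ ?_
    · intro π hπ
      simpa using hπ
    · intro a _ b _ hab
      exact mul_right_cancel hab
    · intro π hπ
      refine ⟨π * κ⁻¹, ?_, by group⟩
      rw [Finset.mem_filter] at hπ ⊢
      refine ⟨Finset.mem_univ _, ?_⟩
      have : π * κ⁻¹ * κ = π := by group
      rw [this]
      exact hπ.2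
  rw [Finset.sum_congr rfl h2, Finset.sum_const, smul_eq_mul] at h1
  have h3 := count_enum hn (fun _ : Equiv.Perm (Fin n) => True)
  simp only [Finset.filter_true] at h3
  rw [h3] at h1
  have h4 : (cyc n).card * (fib n (finRotate n)).card ≤
      (K.card * ((cyc n).filter P).card) * (fib n (finRotate n)).card := by
    calc _ ≤ _ := h1
      _ = _ := by ring
  exact Nat.le_of_mul_le_mul_right h4 fib_pos

/-- A full cycle acts transitively. -/
lemma cyc_transitive {n : ℕ} (hn : 2 ≤ n) (σ : Equiv.Perm (Fin n)) (hσ : σ.cycleType = {n})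
    {α : Type*} (s : Fin n → α) (hs : ∀ v, s v = s (σ.symm v)) (v w : Fin n) : s v = s w := by
  have hcyc : σ.IsCycle := by
    rw [← Equiv.Perm.card_cycleType_eq_one, hσ]
    simp
  have hsupp : σ.support = Finset.univ := by
    rw [← Finset.card_eq_iff_eq_univ, ← Equiv.Perm.sum_cycleType, hσ]
    simp
  have hv : σ v ≠ v := by
    rw [← Equiv.Perm.mem_support, hsupp]; exact Finset.mem_univ v
  have hw : σ w ≠ w := by
    rw [← Equiv.Perm.mem_support, hsupp]; exact Finset.mem_univ w
  obtain ⟨i, hi⟩ := hcyc.sameCycle hv hw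
  have hstep : ∀ x, s (σ x) = s x := by
    intro x
    have := hs (σ x)
    simpa using this
  have hstep' : ∀ x, s (σ⁻¹ x) = s x := by
    intro x
    have := hs x
    rw [this]
    rfl
  have hz : ∀ i : ℤ, ∀ x, s ((σ ^ i) x) = s x := by
    intro i
    induction i using Int.induction_on with
    | zero => intro x; simp
    | succ i ih =>
      intro x
      rw [zpow_add_one, Equiv.Perm.mul_apply, ih, hstep]
    | pred i ih =>
      intro x
      rw [zpow_sub_one, Equiv.Perm.mul_apply, ih, hstep']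
  rw [← hi, hz]

end Run7.h765
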