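import Mathlib

set_option autoImplicit false
set_option linter.unusedSectionVars false

/-!
Signed sums over Eulerian orientations of the union of two permutation digraphs.
-/

namespace Run7.h765

open MvPolynomial Finset

variable {V : Type*} [Fintype V] [DecidableEq V]

/-- The sign attached to the choice of an end of an arc. -/
def sg (a : ZMod 2) : ℤ := if a = 0 then 1 else -1

/-- The increment of `s` at `v` along the permutation `σ`, an integer in `{-1, 0, 1}`. -/
def dl (σ : Equiv.Perm V) (s : V → ZMod 2) (v : V) : ℤ := ((s v).val : ℤ) - ((s (σ.symm v)).val : ℤ)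

/-- The pair `(s, t)` describes an orientation in which every vertex is chosen exactly twice. -/
def Bal (σ τ : Equiv.Perm V) (s t : V → ZMod 2) : Prop := ∀ v, dl σ s v + dl τ t v = 0

instance (σ τ : Equiv.Perm V) (s t : V → ZMod 2) : Decidable (Bal σ τ s t) := by
  unfold Bal; infer_instance

/-- The coefficient of `∏ x_v ^ 2`. -/
noncomputable def cc (σ τ : Equiv.Perm V) : ℤ :=
  coeff (Finsupp.equivFunOnFinite.symm (fun _ : V => 2))
    ((∏ v : V, (X v - X (σ v))) * (∏ v : V, (X v - X (τ v))) : MvPolynomial V ℤ)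

lemma zmod2_cases (a : ZMod 2) : a = 0 ∨ a = 1 := by
  revert a; decide

lemma diff_eq_sum (σ : Equiv.Perm V) (v : V) :
    (X v - X (σ v) : MvPolynomial V ℤ) =
      ∑ a : ZMod 2, monomial (Finsupp.single (if a = 0 then v else σ v) 1) (sg a) := by
  have h : (Finset.univ : Finset (ZMod 2)) = {0, 1} := by decide
  rw [h, Finset.sum_pair (by decide)]
  simp [sg, X, sub_eq_add_neg]

lemma prod_eq_sum (σ : Equiv.Perm V) :
    (∏ v : V, (X v - X (σ v)) : MvPolynomial V ℤ) =
      ∑ s : V → ZMod 2, monomial (∑ v, Finsupp.single (if s v = 0 then v else σ v) 1)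
        (∏ v, sg (s v)) := by
  simp_rw [diff_eq_sum]
  rw [Finset.prod_univ_sum]
  rw [Fintype.piFinset_univ]
  refine Finset.sum_congr rfl fun s _ => ?_
  rw [← MvPolynomial.monomial_sum_prod]

lemma expo (σ : Equiv.Perm V) (s : V → ZMod 2) (v : V) :
    ((∑ u, Finsupp.single (if s u = 0 then u else σ u) 1 : V →₀ ℕ) v) =
      (if s v = 0 then 1 else 0) + (if s (σ.symm v) = 0 then 0 else 1) := by
  rw [Finsupp.finsetSum_apply]
  have h : ∀ u : V, (Finsupp.single (if s u = 0 then u else σ u) 1 : V →₀ ℕ) v =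
      (if u = v then (if s u = 0 then 1 else 0) else 0) +
        (if u = σ.symm v then (if s u = 0 then 0 else 1) else 0) := by
    intro u
    rw [Finsupp.single_apply]
    by_cases h0 : s u = 0
    · simp [h0]
    · have : (σ u = v) ↔ (u = σ.symm v) := by rw [Equiv.eq_symm_apply]
      simp [h0, this]
  simp_rw [h]
  rw [Finset.sum_add_distrib]
  simp

lemma expo_int (σ : Equiv.Perm V) (s : V → ZMod 2) (v : V) :
    (((∑ u, Finsupp.single (if s u = 0 then u else σ u) 1 : V →₀ ℕ) v : ℕ) : ℤ) =
      1 - dl σ s v := by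
  rw [expo]
  unfold dl
  have key : ∀ a b : ZMod 2, ((((if a = 0 then 1 else 0) + (if b = 0 then 0 else 1) : ℕ)) : ℤ) =
      1 - ((a.val : ℤ) - (b.val : ℤ)) := by decide
  exact key _ _

lemma bal_iff (σ τ : Equiv.Perm V) (s t : V → ZMod 2) :
    ((∑ u, Finsupp.single (if s u = 0 then u else σ u) 1 : V →₀ ℕ) +
      (∑ u, Finsupp.single (if t u = 0 then u else τ u) 1 : V →₀ ℕ) =
      Finsupp.equivFunOnFinite.symm (fun _ : V => 2)) ↔ Bal σ τ s t := by
  rw [Finsupp.ext_iff]
  unfold Bal
  refine forall_congr' fun v => ?_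
  rw [Finsupp.add_apply]
  have h1 := expo_int σ s v
  have h2 := expo_int τ t v
  have h3 : (Finsupp.equivFunOnFinite.symm (fun _ : V => 2) : V →₀ ℕ) v = 2 := rfl
  rw [h3]
  constructor
  · intro h
    have : ((((∑ u, Finsupp.single (if s u = 0 then u else σ u) 1 : V →₀ ℕ) v +
      (∑ u, Finsupp.single (if t u = 0 then u else τ u) 1 : V →₀ ℕ) v : ℕ)) : ℤ) = 2 := by
        rw [h]; rfl
    push_cast at this h1 h2
    linarith
  · intro h
    have : ((((∑ u, Finsupp.single (if s u = 0 then u else σ u) 1 : V →₀ ℕ) v +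
      (∑ u, Finsupp.single (if t u = 0 then u else τ u) 1 : V →₀ ℕ) v : ℕ)) : ℤ) = 2 := by
        push_cast at h1 h2 ⊢
        linarith
    exact_mod_cast this

/-- The coefficient is a signed sum over Eulerian orientations. -/
theorem cc_eq (σ τ : Equiv.Perm V) :
    cc σ τ = ∑ s : V → ZMod 2, ∑ t : V → ZMod 2,
      if Bal σ τ s t then (∏ v, sg (s v)) * (∏ v, sg (t v)) else 0 := by
  unfold cc
  rw [prod_eq_sum, prod_eq_sum, Finset.sum_mul_sum, coeff_sum]
  refine Finset.sum_congr rfl fun s _ => ?_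
  rw [coeff_sum]
  refine Finset.sum_congr rfl fun t _ => ?_
  rw [monomial_mul, coeff_monomial]
  simp only [bal_iff]

end Run7.h765
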