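import Mathlib
import Pool.Agent.Run7.h765.EO

set_option autoImplicit false
set_option linter.unusedSectionVars false

namespace Run7.h765

open Finset

variable {V : Type*} [Fintype V] [DecidableEq V]

/-- The parity of the number of Eulerian orientations with a prescribed choice at `v0`. -/
def par (σ τ : Equiv.Perm V) (v0 : V) : ZMod 2 :=
  ∑ s : V → ZMod 2, ∑ t : V → ZMod 2, if Bal σ τ s t ∧ s v0 = 1 then 1 else 0

lemma dl_add_one (σ : Equiv.Perm V) (s : V → ZMod 2) (v : V) :
    dl σ (s + 1) v = - dl σ s v := by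
  unfold dl
  have key : ∀ a b : ZMod 2, (((a + 1).val : ℤ) - ((b + 1).val : ℤ)) = -((a.val : ℤ) - (b.val : ℤ)) := by
    decide
  exact key _ _

lemma bal_add_one (σ τ : Equiv.Perm V) (s t : V → ZMod 2) :
    Bal σ τ (s + 1) (t + 1) ↔ Bal σ τ s t := by
  unfold Bal
  refine forall_congr' fun v => ?_
  rw [dl_add_one, dl_add_one]
  constructor <;> intro h <;> linarith

lemma sg_add_one (a : ZMod 2) : sg (a + 1) = - sg a := by
  revert a; decide

lemma prod_sg_add_one (s t : V → ZMod 2) :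
    (∏ v, sg ((s + 1) v)) * (∏ v, sg ((t + 1) v)) = (∏ v, sg (s v)) * (∏ v, sg (t v)) := by
  simp only [Pi.add_apply, Pi.one_apply, sg_add_one, Finset.prod_neg]
  have : ((-1 : ℤ) ^ (#(univ : Finset V))) * ((-1 : ℤ) ^ (#(univ : Finset V))) = 1 := by
    rw [← pow_add, ← two_mul, pow_mul]; simp
  calc _ = (((-1 : ℤ) ^ (#(univ : Finset V))) * ((-1 : ℤ) ^ (#(univ : Finset V)))) *
      ((∏ v, sg (s v)) * (∏ v, sg (t v))) := by ring
    _ = _ := by rw [this, one_mul]

lemma sg_cast (a : ZMod 2) : ((sg a : ℤ) : ZMod 2) = 1 := by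
  revert a; decide

/-- If `4` divides the coefficient then the number of Eulerian orientations with
a prescribed choice at `v0` is even. -/
theorem par_eq_zero (σ τ : Equiv.Perm V) (v0 : V) (h : (4 : ℤ) ∣ cc σ τ) : par σ τ v0 = 0 := by
  set D : ℤ := ∑ s : V → ZMod 2, ∑ t : V → ZMod 2,
    if Bal σ τ s t ∧ s v0 = 1 then (∏ v, sg (s v)) * (∏ v, sg (t v)) else 0 with hD
  have hD' : D = ∑ s : V → ZMod 2, ∑ t : V → ZMod 2,
    if Bal σ τ s t ∧ s v0 = 0 then (∏ v, sg (s v)) * (∏ v, sg (t v)) else 0 := by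
    rw [hD, ← Equiv.sum_comp (Equiv.addRight (1 : V → ZMod 2))]
    refine Finset.sum_congr rfl fun s _ => ?_
    rw [← Equiv.sum_comp (Equiv.addRight (1 : V → ZMod 2))]
    refine Finset.sum_congr rfl fun t _ => ?_
    simp only [Equiv.coe_addRight]
    rw [prod_sg_add_one]
    have h1 : (s + 1) v0 = 1 ↔ s v0 = 0 := by
      rw [Pi.add_apply, Pi.one_apply]; exact add_eq_right
    simp only [bal_add_one, h1]
  have hcc : cc σ τ = 2 * D := by
    rw [two_mul]
    nth_rw 2 [hD']
    rw [hD, cc_eq, ← Finset.sum_add_distrib]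
    refine Finset.sum_congr rfl fun s _ => ?_
    rw [← Finset.sum_add_distrib]
    refine Finset.sum_congr rfl fun t _ => ?_
    rcases zmod2_cases (s v0) with h0 | h0 <;> by_cases hb : Bal σ τ s t <;> simp [h0, hb]
  have h2 : (2 : ℤ) ∣ D := by
    rw [hcc] at h
    have : (2 : ℤ) * 2 ∣ 2 * D := by simpa using h
    exact (mul_dvd_mul_iff_left (by norm_num)).mp this
  have h3 : ((D : ℤ) : ZMod 2) = 0 := by
    rw [ZMod.intCast_zmod_eq_zero_iff_dvd]; exact_mod_cast h2
  rw [hD] at h3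
  push_cast at h3
  unfold par
  refine Eq.trans ?_ h3
  refine Finset.sum_congr rfl fun s _ => ?_
  refine Finset.sum_congr rfl fun t _ => ?_
  by_cases hb : Bal σ τ s t ∧ s v0 = 1
  · rw [if_pos hb, if_pos hb]; simp [sg_cast]
  · rw [if_neg hb, if_neg hb]

/-- Relabelling the vertices does not change the parity. -/
theorem par_conj {W : Type*} [Fintype W] [DecidableEq W] (e : W ≃ V) (σ τ : Equiv.Perm V) (w0 : W) :
    par σ τ (e w0) = par ((e.trans σ).trans e.symm) ((e.trans τ).trans e.symm) w0 := by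
  unfold par
  rw [← Equiv.sum_comp (Equiv.arrowCongr e (Equiv.refl (ZMod 2)))]
  refine Finset.sum_congr rfl fun s _ => ?_
  rw [← Equiv.sum_comp (Equiv.arrowCongr e (Equiv.refl (ZMod 2)))]
  refine Finset.sum_congr rfl fun t _ => ?_
  have hd : ∀ (ρ : Equiv.Perm V) (r : W → ZMod 2) (w : W),
      dl ρ ((Equiv.arrowCongr e (Equiv.refl (ZMod 2))) r) (e w) =
        dl ((e.trans ρ).trans e.symm) r w := by
    intro ρ r w
    unfold dl
    simp [Equiv.arrowCongr_apply]
  have hb : Bal σ τ ((Equiv.arrowCongr e (Equiv.refl (ZMod 2))) s)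
      ((Equiv.arrowCongr e (Equiv.refl (ZMod 2))) t) ↔
      Bal ((e.trans σ).trans e.symm) ((e.trans τ).trans e.symm) s t := by
    unfold Bal
    rw [← e.forall_congr_right]
    simp only [hd]
  have h1 : (Equiv.arrowCongr e (Equiv.refl (ZMod 2))) s (e w0) = s w0 := by
    simp [Equiv.arrowCongr_apply]
  simp only [hb, h1]

end Run7.h765
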