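import Mathlib
import Pool.Agent.Run7.h765.Par

set_option autoImplicit false
set_option linter.unusedSectionVars false

/-!
The parity statement behind the cycle-plus-triangles theorem, by the Chevalley-Warning argument.
-/

namespace Run7.h765

open Finset MvPolynomial

/-- The parity of the number of completions on one block, the block being traversed along `ρ`. -/
def NN {k : ℕ} (ρ : Equiv.Perm (Fin k)) (a a' : Fin k → ZMod 2) : ZMod 2 :=
  ∑ t : Fin k → ZMod 2, if ∀ i, (((a i).val : ℤ) - ((a' i).val : ℤ)) +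
    (((t i).val : ℤ) - ((t (ρ.symm i)).val : ℤ)) = 0 then 1 else 0

/-- Three permutations of four positions giving the three cyclic orders. -/
def k4 : Fin 3 → Equiv.Perm (Fin 4)
  | 0 => 1
  | 1 => Equiv.swap 1 2
  | 2 => Equiv.swap 2 3

lemma NN3_eq : ∀ a a' : Fin 3 → ZMod 2, NN (finRotate 3) a a' =
    (∑ i, a i * (1 + a' i)) * (1 + ∑ i, (a i + a' i)) := by
  decide +kernel

lemma NN3_bal : ∀ a a' : Fin 3 → ZMod 2, NN (finRotate 3) a a' ≠ 0 →
    ∑ i, (((a i).val : ℤ) - ((a' i).val : ℤ)) = 0 := by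
  decide +kernel

lemma NN3_one : ∀ a a' : Fin 3 → ZMod 2, ∑ i, (((a i).val : ℤ) - ((a' i).val : ℤ)) = 0 →
    NN (finRotate 3) a a' + ∏ i, (1 + (a i + a' i)) = 1 := by
  decide +kernel

lemma NN2_one : ∀ a a' : Fin 2 → ZMod 2, ∑ i, (((a i).val : ℤ) - ((a' i).val : ℤ)) = 0 →
    NN (finRotate 2) a a' + ∏ i, (1 + (a i + a' i)) = 1 := by
  decide +kernel

lemma NN4_one : ∀ a a' : Fin 4 → ZMod 2, ∑ i, (((a i).val : ℤ) - ((a' i).val : ℤ)) = 0 →
    (∑ r : Fin 3, NN (k4 r * finRotate 4 * (k4 r)⁻¹) a a') + ∏ i, (1 + (a i + a' i)) = 1 := by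
  decide +kernel

lemma one_add_ne_zero_iff : ∀ a b : ZMod 2, 1 + (a + b) ≠ 0 → a = b := by decide

/-- The vertex set: one block of size `k` and `m` blocks of size three. -/
abbrev VV (k m : ℕ) := Fin k ⊕ (Fin m × Fin 3)

variable {k m : ℕ}

/-- increments restricted to the exceptional block -/
def aQ (s : VV k m → ZMod 2) : Fin k → ZMod 2 := fun i => s (Sum.inl i)

def aJ (s : VV k m → ZMod 2) (j : Fin m) : Fin 3 → ZMod 2 := fun i => s (Sum.inr (j, i))

def gQ (σ : Equiv.Perm (VV k m)) (s : VV k m → ZMod 2) : ZMod 2 :=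
  ∏ i, (1 + (aQ s i + aQ (s ∘ σ.symm) i))

def gJ (σ : Equiv.Perm (VV k m)) (s : VV k m → ZMod 2) (j : Fin m) : ZMod 2 :=
  ∏ i, (1 + (aJ s j i + aJ (s ∘ σ.symm) j i))

def fJ (σ : Equiv.Perm (VV k m)) (s : VV k m → ZMod 2) (j : Fin m) : ZMod 2 :=
  NN (finRotate 3) (aJ s j) (aJ (s ∘ σ.symm) j)

def dQ (σ : Equiv.Perm (VV k m)) (s : VV k m → ZMod 2) : ℤ :=
  ∑ i, (((aQ s i).val : ℤ) - ((aQ (s ∘ σ.symm) i).val : ℤ))

def dJ (σ : Equiv.Perm (VV k m)) (s : VV k m → ZMod 2) (j : Fin m) : ℤ :=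
  ∑ i, (((aJ s j i).val : ℤ) - ((aJ (s ∘ σ.symm) j i).val : ℤ))

lemma total_zero (σ : Equiv.Perm (VV k m)) (s : VV k m → ZMod 2) :
    dQ σ s + ∑ j, dJ σ s j = 0 := by
  have h : ∑ v : VV k m, (((s v).val : ℤ) - ((s (σ.symm v)).val : ℤ)) = 0 := by
    rw [Finset.sum_sub_distrib, Equiv.sum_comp σ.symm (fun v => ((s v).val : ℤ)), sub_self]
  rw [Fintype.sum_sum_type, Fintype.sum_prod_type] at h
  exact h

lemma gQ_bal (σ : Equiv.Perm (VV k m)) (s : VV k m → ZMod 2) (h : gQ σ s ≠ 0) : dQ σ s = 0 := by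
  unfold gQ at h
  rw [Finset.prod_ne_zero_iff] at h
  unfold dQ
  refine Finset.sum_eq_zero fun i hi => ?_
  rw [one_add_ne_zero_iff _ _ (h i hi), sub_self]

lemma gJ_bal (σ : Equiv.Perm (VV k m)) (s : VV k m → ZMod 2) (j : Fin m) (h : gJ σ s j ≠ 0) :
    dJ σ s j = 0 := by
  unfold gJ at h
  rw [Finset.prod_ne_zero_iff] at h
  unfold dJ
  refine Finset.sum_eq_zero fun i hi => ?_
  rw [one_add_ne_zero_iff _ _ (h i hi), sub_self]

lemma fJ_bal (σ : Equiv.Perm (VV k m)) (s : VV k m → ZMod 2) (j : Fin m) (h : fJ σ s j ≠ 0) :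
    dJ σ s j = 0 := NN3_bal _ _ h

/-! Polynomials -/

/-- polynomial expressing that the increment at `v` vanishes -/
noncomputable def pv (σ : Equiv.Perm (VV k m)) (v : VV k m) : MvPolynomial (VV k m) (ZMod 2) :=
  1 + (X v + X (σ.symm v))

noncomputable def pGQ (σ : Equiv.Perm (VV k m)) : MvPolynomial (VV k m) (ZMod 2) :=
  ∏ i : Fin k, pv σ (Sum.inl i)

noncomputable def pGJ (σ : Equiv.Perm (VV k m)) (j : Fin m) : MvPolynomial (VV k m) (ZMod 2) :=
  ∏ i : Fin 3, pv σ (Sum.inr (j, i))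

noncomputable def pFJ (σ : Equiv.Perm (VV k m)) (j : Fin m) : MvPolynomial (VV k m) (ZMod 2) :=
  (∑ i : Fin 3, X (Sum.inr (j, i)) * (1 + X (σ.symm (Sum.inr (j, i))))) *
    (1 + ∑ i : Fin 3, (X (Sum.inr (j, i)) + X (σ.symm (Sum.inr (j, i)))))

lemma deg_X (v : VV k m) : (X v : MvPolynomial (VV k m) (ZMod 2)).totalDegree ≤ 1 := by
  rw [totalDegree_X]

lemma deg_one : (1 : MvPolynomial (VV k m) (ZMod 2)).totalDegree = 0 := totalDegree_one

lemma deg_add {p q : MvPolynomial (VV k m) (ZMod 2)} {d : ℕ} (hp : p.totalDegree ≤ d)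
    (hq : q.totalDegree ≤ d) : (p + q).totalDegree ≤ d :=
  (totalDegree_add p q).trans (max_le hp hq)

lemma deg_pv (σ : Equiv.Perm (VV k m)) (v : VV k m) : (pv σ v).totalDegree ≤ 1 := by
  unfold pv
  exact deg_add (by rw [deg_one]; omega) (deg_add (deg_X _) (deg_X _))

lemma deg_pGQ (σ : Equiv.Perm (VV k m)) : (pGQ σ).totalDegree ≤ k := by
  unfold pGQ
  refine (totalDegree_finsetProd _ _).trans ?_
  refine (Finset.sum_le_sum fun i _ => deg_pv σ _).trans ?_
  simp

lemma deg_pGJ (σ : Equiv.Perm (VV k m)) (j : Fin m) : (pGJ σ j).totalDegree ≤ 3 := by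
  unfold pGJ
  refine (totalDegree_finsetProd _ _).trans ?_
  refine (Finset.sum_le_sum fun i _ => deg_pv σ _).trans ?_
  simp

lemma deg_sum {ι : Type*} (t : Finset ι) (f : ι → MvPolynomial (VV k m) (ZMod 2)) (d : ℕ)
    (h : ∀ i ∈ t, (f i).totalDegree ≤ d) : (∑ i ∈ t, f i).totalDegree ≤ d :=
  totalDegree_finsetSum_le h

lemma deg_pFJ (σ : Equiv.Perm (VV k m)) (j : Fin m) : (pFJ σ j).totalDegree ≤ 3 := by
  unfold pFJ
  refine (totalDegree_mul _ _).trans ?_
  have h1 : (∑ i : Fin 3, X (Sum.inr (j, i)) * (1 + X (σ.symm (Sum.inr (j, i)))) :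
      MvPolynomial (VV k m) (ZMod 2)).totalDegree ≤ 2 := by
    refine deg_sum _ _ _ fun i _ => ?_
    refine (totalDegree_mul _ _).trans ?_
    have h3 := deg_X (k := k) (m := m) (Sum.inr (j, i))
    have h4 : (1 + X (σ.symm (Sum.inr (j, i))) : MvPolynomial (VV k m) (ZMod 2)).totalDegree ≤ 1 :=
      deg_add (by rw [deg_one]; omega) (deg_X _)
    omega
  have h2 : (1 + ∑ i : Fin 3, (X (Sum.inr (j, i)) + X (σ.symm (Sum.inr (j, i)))) :
      MvPolynomial (VV k m) (ZMod 2)).totalDegree ≤ 1 := by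
    refine deg_add (by rw [deg_one]; omega) (deg_sum _ _ _ fun i _ => ?_)
    exact deg_add (deg_X _) (deg_X _)
  omega

lemma eval_pv (σ : Equiv.Perm (VV k m)) (s : VV k m → ZMod 2) (v : VV k m) :
    eval s (pv σ v) = 1 + (s v + s (σ.symm v)) := by
  simp [pv]

lemma eval_pGQ (σ : Equiv.Perm (VV k m)) (s : VV k m → ZMod 2) : eval s (pGQ σ) = gQ σ s := by
  unfold pGQ gQ
  rw [map_prod]
  exact Finset.prod_congr rfl fun i _ => eval_pv σ s _

lemma eval_pGJ (σ : Equiv.Perm (VV k m)) (s : VV k m → ZMod 2) (j : Fin m) :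
    eval s (pGJ σ j) = gJ σ s j := by
  unfold pGJ gJ
  rw [map_prod]
  exact Finset.prod_congr rfl fun i _ => eval_pv σ s _

lemma eval_pFJ (σ : Equiv.Perm (VV k m)) (s : VV k m → ZMod 2) (j : Fin m) :
    eval s (pFJ σ j) = fJ σ s j := by
  unfold pFJ fJ
  rw [NN3_eq]
  simp [aJ]

lemma sum_eval (f : MvPolynomial (VV k m) (ZMod 2)) (h : f.totalDegree < k + m * 3) :
    ∑ s : VV k m → ZMod 2, eval s f = 0 := by
  refine MvPolynomial.sum_eval_eq_zero f ?_
  have : Fintype.card (ZMod 2) - 1 = 1 := by simp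
  rw [this, one_mul]
  simpa using h

lemma deg_prod_FG (σ : Equiv.Perm (VV k m)) (T J : Finset (Fin m)) :
    (∏ i ∈ J, (if i ∈ T then pGJ σ i else pFJ σ i)).totalDegree ≤ 3 * J.card := by
  refine (totalDegree_finsetProd _ _).trans ?_
  have : ∀ i ∈ J, (if i ∈ T then pGJ σ i else pFJ σ i).totalDegree ≤ 3 := by
    intro i _
    split_ifs
    · exact deg_pGJ σ i
    · exact deg_pFJ σ i
  refine (Finset.sum_le_sum this).trans ?_
  simp [mul_comm]

lemma eval_prod_FG (σ : Equiv.Perm (VV k m)) (s : VV k m → ZMod 2) (T J : Finset (Fin m)) :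
    eval s (∏ i ∈ J, (if i ∈ T then pGJ σ i else pFJ σ i)) =
      ∏ i ∈ J, (if i ∈ T then gJ σ s i else fJ σ s i) := by
  rw [map_prod]
  refine Finset.prod_congr rfl fun i _ => ?_
  split_ifs
  · exact eval_pGJ σ s i
  · exact eval_pFJ σ s i

/-- The sum with the blocks in `T` switched off. -/
def BT (σ : Equiv.Perm (VV k m)) (v0 : VV k m) (T : Finset (Fin m)) : ZMod 2 :=
  ∑ s : VV k m → ZMod 2, s v0 * gQ σ s * ∏ i, (if i ∈ T then gJ σ s i else fJ σ s i)

lemma zmod2_add_self (a : ZMod 2) : a + a = 0 := by revert a; decide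

lemma eq_of_add_eq_zero2 (a b : ZMod 2) (h : a + b = 0) : a = b := by
  revert a b; decide

lemma FG_bal (σ : Equiv.Perm (VV k m)) (s : VV k m → ZMod 2) (T : Finset (Fin m)) (i : Fin m)
    (h : (if i ∈ T then gJ σ s i else fJ σ s i) ≠ 0) : dJ σ s i = 0 := by
  split_ifs at h
  · exact gJ_bal σ s i h
  · exact fJ_bal σ s i h

theorem BT_insert (σ : Equiv.Perm (VV k m)) (v0 : VV k m) (T : Finset (Fin m)) (j : Fin m)
    (hj : j ∉ T) : BT σ v0 T = BT σ v0 (insert j T) := by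
  apply eq_of_add_eq_zero2
  have hm : 1 ≤ m := by
    have := j.2; omega
  have key : BT σ v0 T + BT σ v0 (insert j T) =
      ∑ s : VV k m → ZMod 2, eval s (X v0 * pGQ σ *
        ∏ i ∈ univ.erase j, (if i ∈ T then pGJ σ i else pFJ σ i)) := by
    unfold BT
    rw [← Finset.sum_add_distrib]
    refine Finset.sum_congr rfl fun s _ => ?_
    rw [map_mul, map_mul, eval_X, eval_pGQ, eval_prod_FG]
    have h1 : ∏ i, (if i ∈ T then gJ σ s i else fJ σ s i) =
        fJ σ s j * ∏ i ∈ univ.erase j, (if i ∈ T then gJ σ s i else fJ σ s i) := by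
      rw [← Finset.mul_prod_erase univ _ (Finset.mem_univ j), if_neg hj]
    have h2 : ∏ i, (if i ∈ insert j T then gJ σ s i else fJ σ s i) =
        gJ σ s j * ∏ i ∈ univ.erase j, (if i ∈ T then gJ σ s i else fJ σ s i) := by
      rw [← Finset.mul_prod_erase univ _ (Finset.mem_univ j), if_pos (Finset.mem_insert_self j T)]
      congr 1
      refine Finset.prod_congr rfl fun i hi => ?_
      have : i ≠ j := Finset.ne_of_mem_erase hi
      simp [Finset.mem_insert, this]
    rw [h1, h2]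
    set P := ∏ i ∈ univ.erase j, (if i ∈ T then gJ σ s i else fJ σ s i) with hP
    by_cases hz : gQ σ s * P = 0
    · calc s v0 * gQ σ s * (fJ σ s j * P) + s v0 * gQ σ s * (gJ σ s j * P)
          = s v0 * (fJ σ s j + gJ σ s j) * (gQ σ s * P) := by ring
        _ = s v0 * (gQ σ s * P) := by rw [hz]; ring
        _ = s v0 * gQ σ s * P := by ring
    · have hg : gQ σ s ≠ 0 := left_ne_zero_of_mul hz
      have hp : P ≠ 0 := right_ne_zero_of_mul hz
      have hbQ := gQ_bal σ s hg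
      rw [hP, Finset.prod_ne_zero_iff] at hp
      have hb : ∀ i ∈ univ.erase j, dJ σ s i = 0 := fun i hi => FG_bal σ s T i (hp i hi)
      have ht := total_zero σ s
      rw [← Finset.add_sum_erase univ _ (Finset.mem_univ j), Finset.sum_eq_zero hb, hbQ] at ht
      have hj0 : dJ σ s j = 0 := by linarith
      have h3 := NN3_one _ _ hj0
      have h4 : fJ σ s j + gJ σ s j = 1 := h3
      calc s v0 * gQ σ s * (fJ σ s j * P) + s v0 * gQ σ s * (gJ σ s j * P)
          = s v0 * gQ σ s * P * (fJ σ s j + gJ σ s j) := by ring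
        _ = s v0 * gQ σ s * P := by rw [h4, mul_one]
  rw [key]
  apply sum_eval
  have h1 := totalDegree_mul (X v0 * pGQ σ)
    (∏ i ∈ univ.erase j, (if i ∈ T then pGJ σ i else pFJ σ i))
  have h2 := totalDegree_mul (X v0 : MvPolynomial (VV k m) (ZMod 2)) (pGQ σ)
  have h3 := deg_X (k := k) (m := m) v0
  have h4 := deg_pGQ σ
  have h5 := deg_prod_FG σ T (univ.erase j)
  rw [Finset.card_erase_of_mem (Finset.mem_univ j), Finset.card_univ, Fintype.card_fin] at h5
  omega

theorem BT_empty (σ : Equiv.Perm (VV k m)) (v0 : VV k m) :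
    BT σ v0 ∅ = BT σ v0 univ := by
  have h : ∀ T : Finset (Fin m), BT σ v0 ∅ = BT σ v0 T := by
    intro T
    induction T using Finset.induction_on with
    | empty => rfl
    | insert j T hj ih => rw [ih, BT_insert σ v0 T j hj]
  exact h univ

theorem BT_univ (σ : Equiv.Perm (VV k m)) (v0 : VV k m)
    (hσ : ∀ s : VV k m → ZMod 2, (∀ v, s v = s (σ.symm v)) → ∀ v w, s v = s w) :
    BT σ v0 univ = 1 := by
  unfold BT
  rw [Finset.sum_eq_single (fun _ => (1 : ZMod 2))]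
  · have h111 : (1 : ZMod 2) + (1 + 1) = 1 := by decide
    have hg : gQ σ (fun _ => (1 : ZMod 2)) = 1 := by
      unfold gQ
      refine Finset.prod_eq_one fun i _ => ?_
      simp only [aQ, Function.comp_apply]
      exact h111
    have hj : ∀ i, gJ σ (fun _ => (1 : ZMod 2)) i = 1 := by
      intro i
      unfold gJ
      refine Finset.prod_eq_one fun l _ => ?_
      simp only [aJ, Function.comp_apply]
      exact h111
    simp [hg, hj]
  · intro s _ hs
    by_contra hne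
    apply hs
    have h1 : s v0 * gQ σ s ≠ 0 := left_ne_zero_of_mul hne
    have h2 := right_ne_zero_of_mul hne
    have h3 : s v0 ≠ 0 := left_ne_zero_of_mul h1
    have h4 : gQ σ s ≠ 0 := right_ne_zero_of_mul h1
    rw [Finset.prod_ne_zero_iff] at h2
    unfold gQ at h4
    rw [Finset.prod_ne_zero_iff] at h4
    have hc : ∀ v, s v = s (σ.symm v) := by
      intro v
      rcases v with i | ⟨j, i⟩
      · exact one_add_ne_zero_iff _ _ (h4 i (Finset.mem_univ i))
      · have h5 := h2 j (Finset.mem_univ j)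
        rw [if_pos (Finset.mem_univ j)] at h5
        unfold gJ at h5
        rw [Finset.prod_ne_zero_iff] at h5
        exact one_add_ne_zero_iff _ _ (h5 i (Finset.mem_univ i))
    have h6 := hσ s hc
    have h7 : s v0 = 1 := by
      rcases zmod2_cases (s v0) with h | h
      · exact absurd h h3
      · exact h
    funext v
    rw [h6 v v0, h7]
  · intro h
    exact absurd (Finset.mem_univ _) h

/-- The main parity statement. -/
theorem parity_main (σ : Equiv.Perm (VV k m)) (v0 : VV k m) (hk : 2 ≤ k)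
    (hσ : ∀ s : VV k m → ZMod 2, (∀ v, s v = s (σ.symm v)) → ∀ v w, s v = s w)
    (NQ : (Fin k → ZMod 2) → (Fin k → ZMod 2) → ZMod 2)
    (hNQ : ∀ a a' : Fin k → ZMod 2, ∑ i, (((a i).val : ℤ) - ((a' i).val : ℤ)) = 0 →
      NQ a a' + ∏ i, (1 + (a i + a' i)) = 1) :
    ∑ s : VV k m → ZMod 2, s v0 * NQ (aQ s) (aQ (s ∘ σ.symm)) * ∏ i, fJ σ s i = 1 := by
  rw [← BT_univ σ v0 hσ, ← BT_empty σ v0]
  apply eq_of_add_eq_zero2
  have key : ∑ s : VV k m → ZMod 2, s v0 * NQ (aQ s) (aQ (s ∘ σ.symm)) * ∏ i, fJ σ s i +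
      BT σ v0 ∅ = ∑ s : VV k m → ZMod 2, eval s (X v0 *
        ∏ i ∈ univ, (if i ∈ (∅ : Finset (Fin m)) then pGJ σ i else pFJ σ i)) := by
    unfold BT
    rw [← Finset.sum_add_distrib]
    refine Finset.sum_congr rfl fun s _ => ?_
    rw [map_mul, eval_X, eval_prod_FG]
    simp only [Finset.notMem_empty, if_false]
    set P := ∏ i, fJ σ s i with hP
    by_cases hz : P = 0
    · rw [hz]; ring
    · change P ≠ 0 at hz
      rw [hP, Finset.prod_ne_zero_iff] at hz
      have hb : ∀ i ∈ univ, dJ σ s i = 0 := fun i hi => fJ_bal σ s i (hz i hi)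
      have ht := total_zero σ s
      rw [Finset.sum_eq_zero hb, add_zero] at ht
      have h4 : NQ (aQ s) (aQ (s ∘ σ.symm)) + gQ σ s = 1 := hNQ _ _ ht
      calc s v0 * NQ (aQ s) (aQ (s ∘ σ.symm)) * P + s v0 * gQ σ s * P
          = s v0 * P * (NQ (aQ s) (aQ (s ∘ σ.symm)) + gQ σ s) := by ring
        _ = s v0 * P := by rw [h4, mul_one]
  rw [key]
  apply sum_eval
  have h1 := totalDegree_mul (X v0 : MvPolynomial (VV k m) (ZMod 2))
    (∏ i ∈ univ, (if i ∈ (∅ : Finset (Fin m)) then pGJ σ i else pFJ σ i))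
  have h3 := deg_X (k := k) (m := m) v0
  have h5 := deg_prod_FG σ (∅ : Finset (Fin m)) univ
  rw [Finset.card_univ, Fintype.card_fin] at h5
  omega

end Run7.h765
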