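import Mathlib
import Pool.Agent.Run7.h765.CW

set_option autoImplicit false
set_option linter.unusedSectionVars false

/-!
The union of a Hamiltonian cycle with disjoint triangles and one short cycle.
-/

namespace Run7.h765

open Finset

variable {k m : ℕ}

/-- The permutation rotating every block. -/
def tau0 (k m : ℕ) (ρ : Equiv.Perm (Fin k)) : Equiv.Perm (VV k m) :=
  Equiv.sumCongr ρ (Equiv.prodCongr (Equiv.refl (Fin m)) (finRotate 3))

lemma sum_bal (σ : Equiv.Perm (VV k m)) (ρ : Equiv.Perm (Fin k)) (s : VV k m → ZMod 2) :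
    (∑ t : VV k m → ZMod 2, if Bal σ (tau0 k m ρ) s t then (1 : ZMod 2) else 0) =
      NN ρ (aQ s) (aQ (s ∘ σ.symm)) * ∏ j, fJ σ s j := by
  let e : (VV k m → ZMod 2) ≃ (Fin k → ZMod 2) × (Fin m → Fin 3 → ZMod 2) :=
    (Equiv.sumArrowEquivProdArrow _ _ _).trans
      (Equiv.prodCongr (Equiv.refl _) (Equiv.curry _ _ _))
  rw [← Equiv.sum_comp e.symm, Fintype.sum_prod_type]
  unfold fJ NN
  rw [Finset.prod_univ_sum, Fintype.piFinset_univ, Finset.sum_mul_sum]
  refine Finset.sum_congr rfl fun tq _ => ?_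
  refine Finset.sum_congr rfl fun tj _ => ?_
  have h1 : ∀ i : Fin k, dl (tau0 k m ρ) (e.symm (tq, tj)) (Sum.inl i) =
      ((tq i).val : ℤ) - ((tq (ρ.symm i)).val : ℤ) := by
    intro i; rfl
  have h2 : ∀ (j : Fin m) (i : Fin 3), dl (tau0 k m ρ) (e.symm (tq, tj)) (Sum.inr (j, i)) =
      ((tj j i).val : ℤ) - ((tj j ((finRotate 3).symm i)).val : ℤ) := by
    intro j i; rfl
  have h3 : Bal σ (tau0 k m ρ) s (e.symm (tq, tj)) ↔
      ((∀ i, (((aQ s i).val : ℤ) - ((aQ (s ∘ σ.symm) i).val : ℤ)) +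
        (((tq i).val : ℤ) - ((tq (ρ.symm i)).val : ℤ)) = 0) ∧
      (∀ j, ∀ i, (((aJ s j i).val : ℤ) - ((aJ (s ∘ σ.symm) j i).val : ℤ)) +
        (((tj j i).val : ℤ) - ((tj j ((finRotate 3).symm i)).val : ℤ)) = 0)) := by
    unfold Bal
    constructor
    · intro h
      refine ⟨fun i => ?_, fun j i => ?_⟩
      · have := h (Sum.inl i)
        rw [h1] at this
        exact this
      · have := h (Sum.inr (j, i))
        rw [h2] at this
        exact this
    · rintro ⟨ha, hb⟩ v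
      rcases v with i | ⟨j, i⟩
      · rw [h1]; exact ha i
      · rw [h2]; exact hb j i
  rw [Finset.prod_boole]
  by_cases ha : (∀ i, (((aQ s i).val : ℤ) - ((aQ (s ∘ σ.symm) i).val : ℤ)) +
        (((tq i).val : ℤ) - ((tq (ρ.symm i)).val : ℤ)) = 0)
  · by_cases hb : (∀ j, ∀ i, (((aJ s j i).val : ℤ) - ((aJ (s ∘ σ.symm) j i).val : ℤ)) +
        (((tj j i).val : ℤ) - ((tj j ((finRotate 3).symm i)).val : ℤ)) = 0)
    · rw [if_pos (h3.mpr ⟨ha, hb⟩), if_pos ha, if_pos (fun j _ => hb j), mul_one]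
    · rw [if_neg (fun h => hb (h3.mp h).2), if_pos ha,
        if_neg (fun h => hb (fun j => h j (Finset.mem_univ j))), mul_zero]
  · rw [if_neg (fun h => ha (h3.mp h).1), if_neg ha, zero_mul]

lemma par_tau0 (σ : Equiv.Perm (VV k m)) (ρ : Equiv.Perm (Fin k)) (v0 : VV k m) :
    par σ (tau0 k m ρ) v0 =
      ∑ s : VV k m → ZMod 2, s v0 * NN ρ (aQ s) (aQ (s ∘ σ.symm)) * ∏ j, fJ σ s j := by
  unfold par
  refine Finset.sum_congr rfl fun s _ => ?_
  rw [mul_assoc, ← sum_bal, Finset.mul_sum]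
  refine Finset.sum_congr rfl fun t _ => ?_
  rcases zmod2_cases (s v0) with h | h
  · rw [h]; simp
  · rw [h]; simp

/-- The base parity statement: for a transitive `σ`, summing over the cyclic orders in `R`
of the exceptional block gives an odd number. -/
theorem base_odd (σ : Equiv.Perm (VV k m)) (v0 : VV k m) (hk : 2 ≤ k)
    (hσ : ∀ s : VV k m → ZMod 2, (∀ v, s v = s (σ.symm v)) → ∀ v w, s v = s w)
    {ι : Type*} [Fintype ι] (R : ι → Equiv.Perm (Fin k))
    (hR : ∀ a a' : Fin k → ZMod 2, ∑ i, (((a i).val : ℤ) - ((a' i).val : ℤ)) = 0 →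
      (∑ r, NN (R r) a a') + ∏ i, (1 + (a i + a' i)) = 1) :
    ∑ r, par σ (tau0 k m (R r)) v0 = 1 := by
  rw [← parity_main σ v0 hk hσ (fun a a' => ∑ r, NN (R r) a a') hR]
  simp_rw [par_tau0]
  rw [Finset.sum_comm]
  refine Finset.sum_congr rfl fun s _ => ?_
  rw [Finset.mul_sum, Finset.sum_mul]

end Run7.h765
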