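import Mathlib

set_option autoImplicit false
set_option linter.unusedSectionVars false

/-!
Reversing blocks of three consecutive vertices of a closed path.
-/

namespace Run7.h765

open Finset

variable {n : ℕ} [NeZero n]

/-- Position `p`. -/
def pos (p : ℕ) : Fin n := Fin.ofNat n p

lemma pos_inj {p q : ℕ} (hp : p < n) (hq : q < n) (h : (pos p : Fin n) = pos q) : p = q := by
  have h1 := congrArg Fin.val h
  simp only [pos, Fin.val_ofNat] at h1
  rwa [Nat.mod_eq_of_lt hp, Nat.mod_eq_of_lt hq] at h1

lemma pos_ne {p q : ℕ} (hp : p < n) (hq : q < n) (h : p ≠ q) : (pos p : Fin n) ≠ pos q :=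
  fun h' => h (pos_inj hp hq h')

/-- The set of products of block reversals. -/
def KK (n : ℕ) [NeZero n] (c : ℕ) : ℕ → Finset (Equiv.Perm (Fin n))
  | 0 => {1}
  | (m + 1) => KK n c m ∪ (KK n c m).image
      (fun ρ => ρ * Equiv.swap (pos (c + 3 * m + 1)) (pos (c + 3 * m + 3)))

lemma card_KK (c m : ℕ) : (KK n c m).card ≤ 2 ^ m := by
  induction m with
  | zero => simp [KK]
  | succ m ih =>
    rw [KK]
    refine (Finset.card_union_le _ _).trans ?_
    have := Finset.card_image_le (s := KK n c m)
      (f := fun ρ => ρ * Equiv.swap (pos (c + 3 * m + 1)) (pos (c + 3 * m + 3)))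
    rw [pow_succ]
    omega

lemma KK_fix (c m : ℕ) (ρ : Equiv.Perm (Fin n)) (hρ : ρ ∈ KK n c m) :
    ∀ p, c + 3 * m < p → p < n → ρ (pos p) = pos p := by
  induction m generalizing ρ with
  | zero =>
    simp only [KK, Finset.mem_singleton] at hρ
    subst hρ
    intro p _ _
    rfl
  | succ m ih =>
    intro p h1 h2
    rw [KK, Finset.mem_union, Finset.mem_image] at hρ
    rcases hρ with h | ⟨ρ', h, rfl⟩
    · exact ih ρ h p (by omega) h2
    · rw [Equiv.Perm.mul_apply, Equiv.swap_apply_of_ne_of_ne]
      · exact ih ρ' h p (by omega) h2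
      · exact pos_ne h2 (by omega) (by omega)
      · exact pos_ne h2 (by omega) (by omega)

lemma KK_fix_low (c m : ℕ) (hn : c + 3 * m < n) (ρ : Equiv.Perm (Fin n)) (hρ : ρ ∈ KK n c m) :
    ∀ p, p ≤ c → ρ (pos p) = pos p := by
  induction m generalizing ρ with
  | zero =>
    simp only [KK, Finset.mem_singleton] at hρ
    subst hρ
    intro p _
    rfl
  | succ m ih =>
    intro p h1
    rw [KK, Finset.mem_union, Finset.mem_image] at hρ
    rcases hρ with h | ⟨ρ', h, rfl⟩
    · exact ih (by omega) ρ h p h1
    · rw [Equiv.Perm.mul_apply, Equiv.swap_apply_of_ne_of_ne]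
      · exact ih (by omega) ρ' h p h1
      · exact pos_ne (by omega) (by omega) (by omega)
      · exact pos_ne (by omega) (by omega) (by omega)

variable {R : Type*} [CommRing R]

/-- The product of the differences along positions `0, …, L` and then to `u`. -/
def path (y : Fin n → R) (L : ℕ) (u : R) : R :=
  (∏ p ∈ range L, (y (pos p) - y (pos (p + 1)))) * (y (pos L) - u)

/-- The Vandermonde product of a block. -/
def dlt (a b c : R) : R := (a - b) * (b - c) * (c - a)

lemma path_three (y : Fin n → R) (L : ℕ) (u : R) :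
    path y (L + 3) u = path y L (y (pos (L + 1))) *
      ((y (pos (L + 1)) - y (pos (L + 2))) * (y (pos (L + 2)) - y (pos (L + 3))) *
        (y (pos (L + 3)) - u)) := by
  unfold path
  rw [Finset.prod_range_succ, Finset.prod_range_succ, Finset.prod_range_succ]
  ring

lemma path_congr (y y' : Fin n → R) (L : ℕ) (u : R) (h : ∀ p, p ≤ L → y (pos p) = y' (pos p)) :
    path y L u = path y' L u := by
  unfold path
  rw [h L le_rfl]
  congr 1
  refine Finset.prod_congr rfl fun p hp => ?_
  rw [Finset.mem_range] at hp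
  rw [h p (by omega), h (p + 1) (by omega)]

theorem cube (I : AddSubgroup R) (c m : ℕ) (hn : c + 3 * m < n) (y : Fin n → R) (A u : R)
    (h : ∀ ρ ∈ KK n c m, A * path (y ∘ ρ) (c + 3 * m) u ∈ I) :
    A * path y c u * (∏ j ∈ range m, dlt (y (pos (c + 3 * j + 1))) (y (pos (c + 3 * j + 2)))
      (y (pos (c + 3 * j + 3)))) ∈ I := by
  induction m generalizing A u with
  | zero =>
    have := h 1 (by simp [KK])
    simpa using this
  | succ m ih =>
    set a := y (pos (c + 3 * m + 1)) with ha
    set b := y (pos (c + 3 * m + 2)) with hb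
    set d := y (pos (c + 3 * m + 3)) with hd
    have hL : c + 3 * (m + 1) = (c + 3 * m) + 3 := by ring
    have h1 : ∀ ρ ∈ KK n c m, A * ((a - b) * (b - d) * (d - u)) * path (y ∘ ρ) (c + 3 * m) a ∈ I := by
      intro ρ hρ
      have h2 := h ρ (by rw [KK, Finset.mem_union]; exact Or.inl hρ)
      rw [hL, path_three] at h2
      have e1 : (y ∘ ρ) (pos (c + 3 * m + 1)) = a := by
        rw [Function.comp_apply, KK_fix c m ρ hρ _ (by omega) (by omega)]
      have e2 : (y ∘ ρ) (pos (c + 3 * m + 2)) = b := by
        rw [Function.comp_apply, KK_fix c m ρ hρ _ (by omega) (by omega)]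
      have e3 : (y ∘ ρ) (pos (c + 3 * m + 3)) = d := by
        rw [Function.comp_apply, KK_fix c m ρ hρ _ (by omega) (by omega)]
      rw [e1, e2, e3] at h2
      convert h2 using 1
      ring
    have h1' : ∀ ρ ∈ KK n c m, A * ((d - b) * (b - a) * (a - u)) * path (y ∘ ρ) (c + 3 * m) d ∈ I := by
      intro ρ hρ
      have h2 := h (ρ * Equiv.swap (pos (c + 3 * m + 1)) (pos (c + 3 * m + 3)))
        (by rw [KK, Finset.mem_union, Finset.mem_image]; exact Or.inr ⟨ρ, hρ, rfl⟩)
      rw [hL, path_three] at h2
      set ρ' := ρ * Equiv.swap (pos (c + 3 * m + 1)) (pos (c + 3 * m + 3)) with hρ'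
      have e1 : (y ∘ ρ') (pos (c + 3 * m + 1)) = d := by
        rw [Function.comp_apply, hρ', Equiv.Perm.mul_apply, Equiv.swap_apply_left,
          KK_fix c m ρ hρ _ (by omega) (by omega)]
      have e2 : (y ∘ ρ') (pos (c + 3 * m + 2)) = b := by
        rw [Function.comp_apply, hρ', Equiv.Perm.mul_apply, Equiv.swap_apply_of_ne_of_ne
          (pos_ne (by omega) (by omega) (by omega)) (pos_ne (by omega) (by omega) (by omega)),
          KK_fix c m ρ hρ _ (by omega) (by omega)]
      have e3 : (y ∘ ρ') (pos (c + 3 * m + 3)) = a := by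
        rw [Function.comp_apply, hρ', Equiv.Perm.mul_apply, Equiv.swap_apply_right,
          KK_fix c m ρ hρ _ (by omega) (by omega)]
      have e4 : path (y ∘ ρ') (c + 3 * m) d = path (y ∘ ρ) (c + 3 * m) d := by
        refine path_congr _ _ _ _ fun p hp => ?_
        rw [Function.comp_apply, hρ', Equiv.Perm.mul_apply, Equiv.swap_apply_of_ne_of_ne
          (pos_ne (by omega) (by omega) (by omega)) (pos_ne (by omega) (by omega) (by omega)),
          Function.comp_apply]
      rw [e1, e2, e3, e4] at h2
      convert h2 using 1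
      ring
    have h3 := ih (by omega) _ _ h1
    have h4 := ih (by omega) _ _ h1'
    have h5 := I.sub_mem h3 h4
    convert h5 using 1
    rw [Finset.prod_range_succ]
    unfold path dlt
    ring

end Run7.h765
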