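import Mathlib
import Pool.Agent.Run7.h765.Base
import Pool.Agent.Run7.h765.Cube

set_option autoImplicit false
set_option linter.unusedSectionVars false

/-!
Every enumeration has a modification whose coefficient is not divisible by four.
-/

namespace Run7.h765

open Finset MvPolynomial

lemma closed_eq {R : Type*} [CommRing R] (N : ℕ) (y : Fin (N + 1) → R) :
    ∏ p, (y p - y (finRotate (N + 1) p)) = path y N (y (pos 0)) := by
  rw [Fin.prod_univ_castSucc]
  unfold path
  have h0 : (pos 0 : Fin (N + 1)) = 0 := by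
    apply Fin.ext
    simp [pos]
  have hN : (pos N : Fin (N + 1)) = Fin.last N := by
    apply Fin.ext
    simp [pos]
  have hp : ∀ p : Fin N, (pos (p : ℕ) : Fin (N + 1)) = Fin.castSucc p := by
    intro p
    apply Fin.ext
    have := p.2
    simp [pos, Nat.mod_eq_of_lt (Nat.lt_succ_of_lt this)]
  have hp' : ∀ p : Fin N, (pos ((p : ℕ) + 1) : Fin (N + 1)) = p.succ := by
    intro p
    apply Fin.ext
    have := p.2
    simp [pos, Nat.mod_eq_of_lt (Nat.succ_lt_succ this)]
  rw [finRotate_last, h0, hN, Finset.prod_range]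
  congr 1
  refine Finset.prod_congr rfl fun p _ => ?_
  rw [hp, hp', finRotate_succ_apply, Fin.coeSucc_eq_succ]

/-- The standard enumeration of the block vertex set. -/
def e0 {n c m : ℕ} (h : c + 1 + m * 3 = n) : VV (c + 1) m ≃ Fin n :=
  (Equiv.sumCongr (Equiv.refl _) finProdFinEquiv).trans (finSumFinEquiv.trans (finCongr h))

lemma e0_inl {n c m : ℕ} [NeZero n] (h : c + 1 + m * 3 = n) (i : Fin (c + 1)) :
    e0 h (Sum.inl i) = pos (i : ℕ) := by
  apply Fin.ext
  have := i.2
  simp [e0, pos, Nat.mod_eq_of_lt (show (i : ℕ) < n by omega)]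

lemma e0_inr {n c m : ℕ} [NeZero n] (h : c + 1 + m * 3 = n) (j : Fin m) (i : Fin 3) :
    e0 h (Sum.inr (j, i)) = pos (c + 3 * (j : ℕ) + 1 + (i : ℕ)) := by
  apply Fin.ext
  have h1 := i.2
  have h2 := j.2
  simp only [e0, pos, Equiv.trans_apply, Equiv.sumCongr_apply, Sum.map_inr, finProdFinEquiv_apply_val,
    finSumFinEquiv_apply_right, finCongr_apply_coe, Fin.val_natAdd, Fin.val_ofNat]
  rw [Nat.mod_eq_of_lt (show c + 3 * (j : ℕ) + 1 + (i : ℕ) < n by omega)]
  ring

/-- The base polynomial, as a product over the vertices. -/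
lemma base_eq {R : Type*} [CommRing R] {n c m : ℕ} [NeZero n] (h : c + 1 + m * 3 = n) (y : Fin n → R) :
    path y c (y (pos 0)) * (∏ j ∈ range m, dlt (y (pos (c + 3 * j + 1))) (y (pos (c + 3 * j + 2)))
      (y (pos (c + 3 * j + 3)))) =
    ∏ w : VV (c + 1) m, (y (e0 h w) - y (e0 h (tau0 (c + 1) m (finRotate (c + 1)) w))) := by
  rw [Fintype.prod_sum_type, Fintype.prod_prod_type]
  congr 1
  · have h1 := closed_eq c (fun i => y (e0 h (Sum.inl i)))
    have h2 : path (fun i : Fin (c + 1) => y (e0 h (Sum.inl i))) c (y (e0 h (Sum.inl (pos 0)))) =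
        path y c (y (pos 0)) := by
      have hz : ∀ p, p ≤ c → y (e0 h (Sum.inl (pos p))) = y (pos p) := by
        intro p hp
        rw [e0_inl]
        simp [pos, Nat.mod_eq_of_lt (show p < c + 1 by omega)]
      unfold path
      rw [hz 0 (by omega)]
      simp only
      rw [hz c le_rfl]
      congr 1
      refine Finset.prod_congr rfl fun p hp => ?_
      rw [Finset.mem_range] at hp
      rw [hz p (by omega), hz (p + 1) (by omega)]
    rw [← h2]
    exact h1.symm
  · rw [Finset.prod_range]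
    refine Finset.prod_congr rfl fun j _ => ?_
    rw [Fin.prod_univ_three]
    have h0 : tau0 (c + 1) m (finRotate (c + 1)) (Sum.inr (j, 0)) = Sum.inr (j, 1) := rfl
    have h1 : tau0 (c + 1) m (finRotate (c + 1)) (Sum.inr (j, 1)) = Sum.inr (j, 2) := rfl
    have h2 : tau0 (c + 1) m (finRotate (c + 1)) (Sum.inr (j, 2)) = Sum.inr (j, 0) := rfl
    rw [h0, h1, h2, e0_inr, e0_inr, e0_inr]
    rfl

/-- The subgroup of polynomials whose product with the first factor has coefficient divisible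
by four. -/
noncomputable def I4 {n : ℕ} (σ : Equiv.Perm (Fin n)) : AddSubgroup (MvPolynomial (Fin n) ℤ) where
  carrier := {F | (4 : ℤ) ∣ coeff (Finsupp.equivFunOnFinite.symm (fun _ : Fin n => 2))
    ((∏ v : Fin n, (X v - X (σ v))) * F)}
  zero_mem' := by simp
  add_mem' := by
    intro a b ha hb
    simp only [Set.mem_ofPred_eq] at ha hb ⊢
    rw [mul_add, coeff_add]
    exact dvd_add ha hb
  neg_mem' := by
    intro a ha
    simp only [Set.mem_ofPred_eq] at ha ⊢
    rw [mul_neg, coeff_neg]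
    exact (dvd_neg).mpr ha

lemma mem_I4 {n : ℕ} (σ : Equiv.Perm (Fin n)) (F : MvPolynomial (Fin n) ℤ) :
    F ∈ I4 σ ↔ (4 : ℤ) ∣ coeff (Finsupp.equivFunOnFinite.symm (fun _ : Fin n => 2))
    ((∏ v : Fin n, (X v - X (σ v))) * F) := Iff.rfl

lemma prod_conj {V W : Type*} [Fintype V] [DecidableEq V] [Fintype W] [DecidableEq W]
    (g : W ≃ V) (κ : Equiv.Perm W) :
    (∏ v : V, (X v - X (((g.symm.trans κ).trans g) v)) : MvPolynomial V ℤ) =
      ∏ w : W, (X (g w) - X (g (κ w))) := by
  rw [← Equiv.prod_comp g]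
  refine Finset.prod_congr rfl fun w _ => ?_
  simp

/-- extension of a permutation of the first positions -/
def ext0 {n c m : ℕ} (h : c + 1 + m * 3 = n) (κ : Equiv.Perm (Fin (c + 1))) : Equiv.Perm (Fin n) :=
  ((e0 h).symm.trans (Equiv.sumCongr κ (Equiv.refl _))).trans (e0 h)

theorem exists_good {n c m : ℕ} [NeZero n] (h : c + 1 + m * 3 = n) (hc : 1 ≤ c)
    (σ : Equiv.Perm (Fin n))
    (hσ : ∀ s : Fin n → ZMod 2, (∀ v, s v = s (σ.symm v)) → ∀ v w, s v = s w)
    {ι : Type*} [Fintype ι] (R : ι → Equiv.Perm (Fin (c + 1)))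
    (hR : ∀ a a' : Fin (c + 1) → ZMod 2, ∑ i, (((a i).val : ℤ) - ((a' i).val : ℤ)) = 0 →
      (∑ r, NN (R r * finRotate (c + 1) * (R r)⁻¹) a a') + ∏ i, (1 + (a i + a' i)) = 1)
    (π : Equiv.Perm (Fin n)) :
    ∃ r, ∃ ρ ∈ KK n c m,
      ¬ (4 : ℤ) ∣ cc σ ((π * ext0 h (R r) * ρ) * finRotate n * (π * ext0 h (R r) * ρ)⁻¹) := by
  by_contra hcon
  push Not at hcon
  set G : VV (c + 1) m ≃ Fin n := (e0 h).trans π with hG
  set w0 : VV (c + 1) m := Sum.inl 0 with hw0
  have key : ∀ r, par ((G.trans σ).trans G.symm)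
      (tau0 (c + 1) m (R r * finRotate (c + 1) * (R r)⁻¹)) w0 = 0 := by
    intro r
    set g : Equiv.Perm (Fin n) := π * ext0 h (R r) with hg
    set y : Fin n → MvPolynomial (Fin n) ℤ := fun p => X (g p) with hy
    have hn : c + 3 * m < n := by omega
    have h1 : ∀ ρ ∈ KK n c m, (1 : MvPolynomial (Fin n) ℤ) * path (y ∘ ρ) (c + 3 * m) (y (pos 0)) ∈ I4 σ := by
      intro ρ hρ
      have h2 := hcon r ρ hρ
      unfold cc at h2
      rw [one_mul, mem_I4]
      have h3 : path (y ∘ ρ) (c + 3 * m) (y (pos 0)) =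
          ∏ v : Fin n, (X v - X (((g * ρ) * finRotate n * (g * ρ)⁻¹) v)) := by
        have h4 : y (pos 0) = (y ∘ ρ) (pos 0) := by
          rw [Function.comp_apply, KK_fix_low c m hn ρ hρ 0 (by omega)]
        rw [h4]
        obtain ⟨N, rfl⟩ : ∃ N, n = N + 1 := ⟨n - 1, by omega⟩
        have hN : N = c + 3 * m := by omega
        subst hN
        have h5 := closed_eq (c + 3 * m) (y ∘ ρ)
        have h6 : path (y ∘ ρ) (c + 3 * m) ((y ∘ ρ) (pos 0)) =
            ∏ p, ((y ∘ ρ) p - (y ∘ ρ) (finRotate (c + 3 * m + 1) p)) := by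
          rw [h5]
        rw [h6]
        symm
        rw [← Equiv.prod_comp (g * ρ)]
        refine Finset.prod_congr rfl fun p _ => ?_
        simp [hy, Equiv.Perm.mul_apply]
      rw [h3]
      exact h2
    have h2 := cube (I4 σ) c m hn y 1 (y (pos 0)) h1
    rw [one_mul, base_eq h y] at h2
    have h3 : (∏ w : VV (c + 1) m, (y (e0 h w) - y (e0 h (tau0 (c + 1) m (finRotate (c + 1)) w)))) =
        ∏ v : Fin n, (X v - X (((((e0 h).trans g).symm.trans
          (tau0 (c + 1) m (finRotate (c + 1)))).trans ((e0 h).trans g)) v)) := by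
      rw [prod_conj]
      rfl
    rw [h3, mem_I4] at h2
    have h4 := par_eq_zero σ _ (G w0) h2
    rw [par_conj G] at h4
    have h5 : ((G.trans ((((e0 h).trans g).symm.trans
          (tau0 (c + 1) m (finRotate (c + 1)))).trans ((e0 h).trans g))).trans G.symm) =
        tau0 (c + 1) m (R r * finRotate (c + 1) * (R r)⁻¹) := by
      ext w
      rcases w with i | ⟨j, i⟩
      · simp [hG, hg, ext0, tau0, Equiv.Perm.mul_apply, Equiv.symm_trans_apply,
          Equiv.Perm.mul_def, Equiv.Perm.inv_def]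
      · simp [hG, hg, ext0, tau0, Equiv.Perm.mul_apply, Equiv.symm_trans_apply,
          Equiv.Perm.mul_def, Equiv.Perm.inv_def]
    rw [h5] at h4
    exact h4
  have hodd := base_odd ((G.trans σ).trans G.symm) w0 (by omega) (by
      intro s hs v w
      have h1 := hσ (fun x => s (G.symm x)) (by
        intro x
        have h2 := hs (G.symm x)
        simpa using h2) (G v) (G w)
      simpa using h1) (fun r => R r * finRotate (c + 1) * (R r)⁻¹) hR
  rw [Finset.sum_eq_zero (fun r _ => key r)] at hodd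
  exact absurd hodd (by decide)

end Run7.h765
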