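import Mathlib
import Pool.Agent.Run7.h765.Exist
import Pool.Agent.Run7.h765.Count

set_option autoImplicit false
set_option linter.unusedSectionVars false

namespace Run7.h765

open Finset

/-- General counting statement for `n = (c + 1) + 3 m`. -/
theorem count_good {n c m : ℕ} (h : c + 1 + m * 3 = n) (hc : 1 ≤ c)
    (σ : Equiv.Perm (Fin n)) (hσ : σ.cycleType = {n})
    {ι : Type*} [Fintype ι] (R : ι → Equiv.Perm (Fin (c + 1)))
    (hR : ∀ a a' : Fin (c + 1) → ZMod 2, ∑ i, (((a i).val : ℤ) - ((a' i).val : ℤ)) = 0 →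
      (∑ r, NN (R r * finRotate (c + 1) * (R r)⁻¹) a a') + ∏ i, (1 + (a i + a' i)) = 1) :
    (cyc n).card ≤ (Fintype.card ι * 2 ^ m) *
      ((cyc n).filter (fun τ => ¬ (4 : ℤ) ∣ cc σ τ)).card := by
  classical
  have hn : 2 ≤ n := by omega
  have : NeZero n := ⟨by omega⟩
  set K : Finset (Equiv.Perm (Fin n)) :=
    (Finset.univ ×ˢ KK n c m).image (fun x : ι × Equiv.Perm (Fin n) => ext0 h (R x.1) * x.2) with hK
  have hcard : K.card ≤ Fintype.card ι * 2 ^ m := by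
    refine Finset.card_image_le.trans ?_
    rw [Finset.card_product, Finset.card_univ]
    exact Nat.mul_le_mul_left _ (card_KK c m)
  have hmain := count_main hn (fun τ => ¬ (4 : ℤ) ∣ cc σ τ) K (by
    intro π
    obtain ⟨r, ρ, hρ, hgood⟩ := exists_good h hc σ
      (fun s hs v w => cyc_transitive hn σ hσ s hs v w) R hR π
    refine ⟨ext0 h (R r) * ρ, ?_, ?_⟩
    · rw [hK, Finset.mem_image]
      exact ⟨(r, ρ), by simp [hρ], rfl⟩
    · rw [← mul_assoc]; exact hgood)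
  exact hmain.trans (Nat.mul_le_mul_right _ hcard)

/-- The proportion is at least `(2 / 3) 2 ^ (- ⌊n / 3⌋)`. -/
theorem final_bound (n : ℕ) (hn : 3 ≤ n) (σ : Equiv.Perm (Fin n)) (hσ : σ.cycleType = {n}) :
    (2 / 3 : ℝ) * (1 / 2) ^ (n / 3) * ((cyc n).card : ℝ) ≤
      (((cyc n).filter (fun τ => ¬ (4 : ℤ) ∣ cc σ τ)).card : ℝ) := by
  set G := ((cyc n).filter (fun τ => ¬ (4 : ℤ) ∣ cc σ τ)).card with hG
  have key : ∃ q : ℕ, 2 * q ≤ 3 * 2 ^ (n / 3) ∧ (cyc n).card ≤ q * G := by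
    have h3 : n % 3 = 0 ∨ n % 3 = 1 ∨ n % 3 = 2 := by omega
    rcases h3 with h3 | h3 | h3
    · obtain ⟨m, hm⟩ : ∃ m, n = 3 * m + 3 := ⟨n / 3 - 1, by omega⟩
      refine ⟨2 ^ m, ?_, ?_⟩
      · have : n / 3 = m + 1 := by omega
        rw [this, pow_succ]; omega
      · have := count_good (n := n) (c := 2) (m := m) (by omega) (by omega) σ hσ
          (fun _ : Fin 1 => (1 : Equiv.Perm (Fin 3))) (by
            intro a a' haa
            simpa using NN3_one a a' haa)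
        simpa using this
    · obtain ⟨m, hm⟩ : ∃ m, n = 3 * m + 4 := ⟨n / 3 - 1, by omega⟩
      refine ⟨3 * 2 ^ m, ?_, ?_⟩
      · have : n / 3 = m + 1 := by omega
        rw [this, pow_succ]; omega
      · have := count_good (n := n) (c := 3) (m := m) (by omega) (by omega) σ hσ
          k4 (by
            intro a a' haa
            exact NN4_one a a' haa)
        simpa using this
    · obtain ⟨m, hm⟩ : ∃ m, n = 3 * m + 2 := ⟨n / 3, by omega⟩
      refine ⟨2 ^ m, ?_, ?_⟩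
      · have : n / 3 = m := by omega
        rw [this]; omega
      · have := count_good (n := n) (c := 1) (m := m) (by omega) (by omega) σ hσ
          (fun _ : Fin 1 => (1 : Equiv.Perm (Fin 2))) (by
            intro a a' haa
            simpa using NN2_one a a' haa)
        simpa using this
  obtain ⟨q, hq, hle⟩ := key
  have h1 : ((cyc n).card : ℝ) ≤ (q : ℝ) * (G : ℝ) := by exact_mod_cast hle
  have h2 : 2 * (q : ℝ) ≤ 3 * 2 ^ (n / 3) := by exact_mod_cast hq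
  have h3 : (0 : ℝ) < 2 ^ (n / 3) := by positivity
  have h4 : (1 / 2 : ℝ) ^ (n / 3) * 2 ^ (n / 3) = 1 := by
    rw [← mul_pow]; norm_num
  have h5 : (0 : ℝ) ≤ (1 / 2 : ℝ) ^ (n / 3) := by positivity
  have hG0 : (0 : ℝ) ≤ (G : ℝ) := by positivity
  calc (2 / 3 : ℝ) * (1 / 2) ^ (n / 3) * ((cyc n).card : ℝ)
      ≤ (2 / 3 : ℝ) * (1 / 2) ^ (n / 3) * ((q : ℝ) * (G : ℝ)) := by gcongr
    _ = (1 / 3 : ℝ) * (1 / 2) ^ (n / 3) * ((2 * (q : ℝ)) * (G : ℝ)) := by ring
    _ ≤ (1 / 3 : ℝ) * (1 / 2) ^ (n / 3) * ((3 * 2 ^ (n / 3)) * (G : ℝ)) := by gcongr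
    _ = ((1 / 2 : ℝ) ^ (n / 3) * 2 ^ (n / 3)) * (G : ℝ) := by ring
    _ = (G : ℝ) := by rw [h4, one_mul]

end Run7.h765
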